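import Pool.Agent.H57.BF.Star

/-!
# Near pairs among the common neighbours of a near cluster
-/

set_option autoImplicit false
set_option linter.unusedSectionVars false

open Finset
open scoped Classical

namespace Pool.Agent.H57.BF

open Pool.Agent.H57.AS (Sc Iv Mt nm tn ct dg br nm_mt tn_mt ct_symm ct_swap dg_eq)
open Pool.Agent.H57.FK (Gn)

section
variable {Ω I : Type} [Fintype Ω] {cl : Ω → Ω → I}

/-- many near pairs among the common neighbours -/
theorem dense {X B : Ω → Ω → Prop} (hS : Sc cl) (hX : Iv cl X) (hB : Iv cl B)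
    (h0 : ∀ x, 0 < dg X x) (ρ R : ℝ) (hn : ∀ x y, B x y → nm X x y ≤ ρ) (u : Ω) (Q : Finset Ω)
    (hQ : ∀ q ∈ Q, nm X u q ≤ R) (hR : ρ + 2 * Q.card * R ≤ 1 / 2)
    (W : Finset Ω) (hW' : W = univ.filter fun z => X u z ∧ ∀ q ∈ Q, X z q) (D : ℕ)
    (hD : 4 * D < dg B u) :
    2 * D * W.card < ∑ z ∈ W, (W.filter fun w => B z w).card := by
  obtain ⟨Nu, hNu⟩ : ∃ Nu : Finset Ω, Nu = univ.filter fun z => X u z := ⟨_, rfl⟩
  have hW : W = Nu.filter fun z => ∀ q ∈ Q, X z q := by
    rw [hW', hNu, filter_filter]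
  obtain ⟨Bd, hBd⟩ : ∃ Bd : Finset Ω, Bd = Nu.filter fun z => ¬ ∀ q ∈ Q, X z q := ⟨_, rfl⟩
  have hd : (0 : ℝ) < dg X u := by exact_mod_cast h0 u
  have hNc : Nu.card = dg X u := by rw [hNu]; rfl
  -- few bad vertices
  have hbad : (Bd.card : ℝ) ≤ Q.card * R * dg X u := by
    have h1 : Bd ⊆ Q.biUnion fun q => Nu.filter fun z => ¬ X z q := by
      intro z hz
      rw [hBd, mem_filter] at hz
      obtain ⟨h1, h2⟩ := hz
      push Not at h2
      obtain ⟨q, hq, h3⟩ := h2
      exact mem_biUnion.2 ⟨q, hq, mem_filter.2 ⟨h1, h3⟩⟩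
    have h2 : ∀ q ∈ Q, ((Nu.filter fun z => ¬ X z q).card : ℝ) ≤ R * dg X u := by
      intro q hq
      have h3 := hQ q hq
      have h4 : (Nu.filter fun z => X z q).card = ct X X u q := by
        rw [hNu, filter_filter]
        rfl
      have h5 : (Nu.filter fun z => X z q).card + (Nu.filter fun z => ¬ X z q).card = Nu.card :=
        card_filter_add_card_filter_not _
      have h6 : ((Nu.filter fun z => X z q).card : ℝ) + ((Nu.filter fun z => ¬ X z q).card : ℝ) =
          dg X u := by
        rw [← hNc]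
        exact_mod_cast h5
      rw [h4] at h6
      unfold nm at h3
      have h7 : 1 - R ≤ (ct X X u q : ℝ) / dg X u := by linarith
      rw [le_div_iff₀ hd] at h7
      linarith
    have h3 : (Bd.card : ℝ) ≤ ∑ q ∈ Q, ((Nu.filter fun z => ¬ X z q).card : ℝ) := by
      exact_mod_cast (card_le_card h1).trans card_biUnion_le
    have h4 := h3.trans (sum_le_sum h2)
    rw [sum_const, nsmul_eq_mul] at h4
    linarith
  -- the number of pairs
  have hP := near_pairs hS hX hB h0 ρ hn u
  rw [← hNu] at hP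
  have hsplit : (∑ z ∈ Nu, ct B X z u) ≤ (∑ z ∈ W, (W.filter fun w => B z w).card) +
      2 * (Bd.card * dg B u) := by
    have h1 : (∑ z ∈ Nu, ct B X z u) = (∑ z ∈ W, ct B X z u) + ∑ z ∈ Bd, ct B X z u := by
      rw [hW, hBd]
      exact (sum_filter_add_sum_filter_not _ _ _).symm
    have h2 : (∑ z ∈ Bd, ct B X z u) ≤ Bd.card * dg B u := by
      rw [← smul_eq_mul]
      apply sum_le_card_nsmul
      intro z _
      refine (Pool.Agent.H57.AS.ct_le_left z u).trans ?_
      rw [dg_eq hS hB z u]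
    have h3 : (∑ z ∈ W, ct B X z u) ≤
        (∑ z ∈ W, (W.filter fun w => B z w).card) + Bd.card * dg B u := by
      have h4 : ∀ z ∈ W, ct B X z u ≤ (W.filter fun w => B z w).card +
          (Bd.filter fun w => B z w).card := by
        intro z _
        unfold ct
        refine (card_le_card ?_).trans (card_union_le _ _)
        intro w hw
        rw [mem_filter] at hw
        have h7 : X u w := (hX.comm hS _ _).1 hw.2.2
        rw [mem_union]
        by_cases h8 : ∀ q ∈ Q, X w q
        · left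
          rw [mem_filter, hW, mem_filter, hNu, mem_filter]
          exact ⟨⟨⟨mem_univ _, h7⟩, h8⟩, hw.2.1⟩
        · right
          rw [mem_filter, hBd, mem_filter, hNu, mem_filter]
          exact ⟨⟨⟨mem_univ _, h7⟩, h8⟩, hw.2.1⟩
      have h5 := sum_le_sum h4
      rw [sum_add_distrib] at h5
      have h6 : (∑ z ∈ W, (Bd.filter fun w => B z w).card) ≤ Bd.card * dg B u := by
        have h7 : (∑ z ∈ W, (Bd.filter fun w => B z w).card) =
            ∑ w ∈ Bd, (W.filter fun z => B z w).card := by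
          simp only [card_filter]
          exact sum_comm
        rw [h7, ← smul_eq_mul]
        apply sum_le_card_nsmul
        intro w _
        have h8 : (W.filter fun z => B z w).card ≤ dg B w := by
          unfold dg
          apply card_le_card
          intro z hz
          rw [mem_filter] at hz ⊢
          exact ⟨mem_univ _, (hB.comm hS _ _).1 hz.2⟩
        rw [dg_eq hS hB u w]
        exact h8
      omega
    omega
  have hWc : W.card ≤ dg X u := by
    rw [← hNc, hW]
    exact card_filter_le _ _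
  obtain ⟨E, hE⟩ : ∃ E : ℕ, E = ∑ z ∈ W, (W.filter fun w => B z w).card := ⟨_, rfl⟩
  rw [← hE] at hsplit ⊢
  have h1 : ((∑ z ∈ Nu, ct B X z u : ℕ) : ℝ) ≤ E + 2 * (Bd.card * dg B u) := by
    exact_mod_cast hsplit
  have h2 : (W.card : ℝ) ≤ dg X u := by exact_mod_cast hWc
  have h3 : 4 * (D : ℝ) < dg B u := by exact_mod_cast hD
  have h4 : (0 : ℝ) ≤ D := Nat.cast_nonneg _
  have hBpos : (0 : ℝ) < dg B u := by linarith
  have h6 : (Bd.card : ℝ) * dg B u ≤ Q.card * R * dg X u * dg B u :=
    mul_le_mul_of_nonneg_right hbad hBpos.le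
  have h7 : (1 - ρ) * dg X u * dg B u ≤ E + 2 * (Q.card * R * dg X u * dg B u) := by
    linarith
  have h8 : (0 : ℝ) < dg X u * dg B u := mul_pos hd hBpos
  have h9 : (1 - ρ - 2 * Q.card * R) * (dg X u * dg B u) ≤ E := by nlinarith
  have h10 : (1 / 2 : ℝ) * (dg X u * dg B u) ≤ E := by
    refine le_trans ?_ h9
    apply mul_le_mul_of_nonneg_right _ h8.le
    linarith
  have h11 : 2 * (D : ℝ) * W.card ≤ 2 * D * dg X u :=
    mul_le_mul_of_nonneg_left h2 (by positivity)
  have h12 : 2 * (D : ℝ) * dg X u < (1 / 2) * (dg X u * dg B u) := by nlinarith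
  have h13 : (2 * (D : ℝ) * W.card) < E := by linarith
  exact_mod_cast h13

end

end Pool.Agent.H57.BF
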