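import Pool.Agent.H57.BF.Near

/-!
# Trees in graphs of large average degree
-/

set_option autoImplicit false
set_option linter.unusedSectionVars false

open Finset
open scoped Classical

namespace Pool.Agent.H57.BF

/-- a subset with large minimum degree -/
theorem peel {Ω : Type} (B : Ω → Ω → Prop) (hB : ∀ x y, B x y → B y x) (D : ℕ) :
    ∀ (n : ℕ) (S : Finset Ω), S.card = n →
      2 * D * S.card < ∑ z ∈ S, (S.filter fun w => B z w).card →
      ∃ S' ⊆ S, S'.Nonempty ∧ ∀ z ∈ S', D < (S'.filter fun w => B z w).card := by
  intro n
  induction n with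
  | zero =>
    intro S hS h
    rw [card_eq_zero] at hS
    subst hS
    simp at h
  | succ n ih =>
    intro S hS h
    by_cases hall : ∀ z ∈ S, D < (S.filter fun w => B z w).card
    · refine ⟨S, Subset.refl _, ?_, hall⟩
      rw [← card_pos]
      omega
    push Not at hall
    obtain ⟨z, hz, hzD⟩ := hall
    have hc : (S.erase z).card = n := by
      rw [card_erase_of_mem hz]
      omega
    have hsum : ∑ y ∈ S, (S.filter fun w => B y w).card ≤
        (∑ y ∈ S.erase z, ((S.erase z).filter fun w => B y w).card) +
          2 * (S.filter fun w => B z w).card := by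
      rw [← add_sum_erase S _ hz]
      have h1 : ∀ y ∈ S.erase z, (S.filter fun w => B y w).card ≤
          ((S.erase z).filter fun w => B y w).card + if B y z then 1 else 0 := by
        intro y _
        have h2 : (S.filter fun w => B y w) ⊆
            ((S.erase z).filter fun w => B y w) ∪ ({z} : Finset Ω).filter fun w => B y w := by
          intro w hw
          rw [mem_filter] at hw
          rw [mem_union, mem_filter, mem_filter, mem_erase, mem_singleton]
          by_cases hwz : w = z
          · exact Or.inr ⟨hwz, hw.2⟩
          · exact Or.inl ⟨⟨hwz, hw.1⟩, hw.2⟩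
        refine (card_le_card h2).trans ((card_union_le _ _).trans ?_)
        apply Nat.add_le_add_left
        by_cases hyz : B y z
        · rw [if_pos hyz]
          exact (card_filter_le _ _).trans (by simp)
        · rw [if_neg hyz]
          simp [filter_singleton, hyz]
      have h2 := sum_le_sum h1
      rw [sum_add_distrib] at h2
      have h3 : (∑ y ∈ S.erase z, if B y z then 1 else 0) ≤ (S.filter fun w => B z w).card := by
        rw [← card_filter]
        apply card_le_card
        intro w hw
        rw [mem_filter] at hw ⊢
        exact ⟨mem_of_mem_erase hw.1, hB _ _ hw.2⟩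
      omega
    obtain ⟨S', h1, h2, h3⟩ := ih (S.erase z) hc (by
      rw [hc]
      rw [hS] at h
      have : 2 * D * (n + 1) = 2 * D * n + 2 * D := by ring
      omega)
    exact ⟨S', h1.trans (erase_subset _ _), h2, h3⟩

/-- greedy embedding of an ordered tree -/
theorem grow {Ω : Type} (B : Ω → Ω → Prop) (S : Finset Ω) (hS : S.Nonempty) (D : ℕ)
    (h : ∀ z ∈ S, D < (S.filter fun w => B z w).card) (par : ℕ → ℕ)
    (hpar : ∀ i, 1 ≤ i → par i < i) :
    ∀ k, k ≤ D → ∃ w : ℕ → Ω, (∀ i ≤ k, w i ∈ S) ∧ (∀ i, 1 ≤ i → i ≤ k → B (w (par i)) (w i)) ∧
      ∀ i j, i < j → j ≤ k → w i ≠ w j := by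
  intro k
  induction k with
  | zero =>
    intro _
    obtain ⟨s, hs⟩ := hS
    refine ⟨fun _ => s, fun _ _ => hs, ?_, ?_⟩
    · intro i h1 h2
      omega
    · intro i j h1 h2
      omega
  | succ k ih =>
    intro hk
    obtain ⟨w, h1, h2, h3⟩ := ih (by omega)
    have hp : par (k + 1) ≤ k := by
      have := hpar (k + 1) (by omega)
      omega
    have h4 := h (w (par (k + 1))) (h1 _ hp)
    have h5 : ∃ v ∈ S.filter (fun v => B (w (par (k + 1))) v), v ∉ (range (k + 1)).image w := by
      by_contra hcon
      push Not at hcon
      have h6 := card_le_card (fun v hv => hcon v hv : S.filter (fun v => B (w (par (k + 1))) v) ⊆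
        (range (k + 1)).image w)
      have h7 := card_image_le (s := range (k + 1)) (f := w)
      rw [card_range] at h7
      omega
    obtain ⟨v, hv, hvn⟩ := h5
    rw [mem_filter] at hv
    have hvn' : ∀ i ≤ k, w i ≠ v := by
      intro i hi h6
      apply hvn
      rw [mem_image]
      exact ⟨i, mem_range.2 (by omega), h6⟩
    refine ⟨fun i => if i = k + 1 then v else w i, ?_, ?_, ?_⟩
    · intro i hi
      by_cases h6 : i = k + 1
      · simp only [h6, if_true]
        exact hv.1
      · simp only [h6, if_false]
        exact h1 i (by omega)
    · intro i hi1 hi2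
      by_cases h6 : i = k + 1
      · subst h6
        have h7 : par (k + 1) ≠ k + 1 := by omega
        simp only [h7, if_false, if_true]
        exact hv.2
      · have h7 : par i ≠ k + 1 := by
          have := hpar i hi1
          omega
        simp only [h7, h6, if_false]
        exact h2 i hi1 (by omega)
    · intro i j hij hj
      have h6 : i ≠ k + 1 := by omega
      by_cases h7 : j = k + 1
      · simp only [h6, h7, if_false, if_true]
        exact hvn' i (by omega)
      · simp only [h6, h7, if_false]
        exact h3 i j hij (by omega)

end Pool.Agent.H57.BF
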