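import Pool.Agent.H57.BF.Dense
import Pool.Agent.H57.BF.Peel

/-!
# Near adjacent pairs in graphs without a complete 4-partite subgraph with `4 t` vertices
-/

set_option autoImplicit false
set_option linter.unusedSectionVars false

open Finset
open scoped Classical

namespace Pool.Agent.H57.BF

open Pool.Agent.H57.AS (Sc Iv Mt nm tn ct dg br nm_mt tn_mt ct_symm ct_swap dg_eq)
open Pool.Agent.H57.FK (Gn)
open Pool.Agent.X60.GenTree (BicliqueFree added TN SN SN_finite TN_acyclic tree_subgraph)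

/-- no four sets of `t` vertices with all edges between them -/
def NoM {V : Type} (G : SimpleGraph V) (t : ℕ) : Prop :=
  ∀ P : Fin 4 → Finset V, (∀ i, (P i).card = t) →
    ¬ ∀ i j, i < j → ∀ a ∈ P i, ∀ b ∈ P j, G.Adj a b

section
variable {Ω I : Type} [Fintype Ω] {cl : Ω → Ω → I}

/-- near adjacent pairs form a graph without large bicliques, or of small degree -/
theorem free4 {m : ℕ} (T : SimpleGraph (Fin m)) (t N n : ℕ) (ht : 1 ≤ t)
    (hN : ∀ (V : Type) (G : SimpleGraph V), BicliqueFree G t → (TN N).IsContained G →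
      T.IsIndContained G) (T₂ : SimpleGraph (Fin (n + 1))) (hT₂ : T₂.IsTree)
    (hc : (TN N).IsContained T₂)
    {G : SimpleGraph Ω} (hS : Sc cl) (hG : Iv cl G.Adj) {X : Ω → Ω → Prop}
    (hX : Iv cl X) (hXA : ∀ x y, X x y → G.Adj x y) (h0 : ∀ x, 0 < dg X x)
    (ρ R : ℝ) (hρ : ρ ≤ 1 / 4) (hR : R ≤ 1 / (32 * t)) (hK : NoM G t) (hemp : IsEmpty (T ↪g G))
    (u₀ : Ω) (hd : 4 * n < dg (Gn G (nm X) (nm_mt hS hX h0) ρ).Adj u₀) :
    BicliqueFree (Gn G (nm X) (nm_mt hS hX h0) R) t := by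
  intro U W hU hW hUW
  have hν := nm_mt hS hX h0
  obtain ⟨u, hu⟩ : U.Nonempty := by
    rw [← card_pos]
    omega
  obtain ⟨w, hw⟩ : W.Nonempty := by
    rw [← card_pos]
    omega
  have ht' : (1 : ℝ) ≤ t := by exact_mod_cast ht
  have hB := gn_iv (cl := cl) hG hν ρ
  have hR0 : 0 ≤ R := by
    have h1 := (hUW u hu w hw).2
    have h2 := hν.tri u w u
    rw [hν.zero, hν.symm w u] at h2
    linarith
  have hQ : ∀ q ∈ U ∪ W, nm X u q ≤ 2 * R := by
    intro q hq
    rcases mem_union.1 hq with h | h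
    · have h1 := (hUW u hu w hw).2
      have h2 := (hUW q h w hw).2
      have h3 := hν.tri u w q
      rw [hν.symm w q] at h3
      linarith
    · have := (hUW u hu q h).2
      linarith
  have hQc : ((U ∪ W).card : ℝ) ≤ 2 * t := by
    have h1 := card_union_le U W
    rw [hU, hW] at h1
    have h2 : (U ∪ W).card ≤ 2 * t := by omega
    exact_mod_cast h2
  have hRt : R * (32 * t) ≤ 1 := by
    rw [le_div_iff₀ (by positivity)] at hR
    exact hR
  have hsum : ρ + 2 * (U ∪ W).card * (2 * R) ≤ 1 / 2 := by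
    have h1 : ((U ∪ W).card : ℝ) * R ≤ 2 * t * R := mul_le_mul_of_nonneg_right hQc hR0
    nlinarith
  have hd' : 4 * n < dg (Gn G (nm X) hν ρ).Adj u := by
    rw [dg_eq hS hB u u₀]
    exact hd
  obtain ⟨Z, hZ⟩ : ∃ Z : Finset Ω, Z = univ.filter fun z => X u z ∧ ∀ q ∈ U ∪ W, X z q := ⟨_, rfl⟩
  have h1 := dense (B := (Gn G (nm X) hν ρ).Adj) hS hX hB h0 ρ (2 * R)
    (fun x y h => h.2) u (U ∪ W) hQ hsum Z hZ n hd'
  obtain ⟨S, hSZ, hSne, hSd⟩ := peel (Gn G (nm X) hν ρ).Adj (fun x y h => h.symm) n _ Z rfl h1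
  obtain ⟨par, f, hf, hfn, hpar, hadj⟩ := Pool.Agent.K4H78.TW.tree_order n (Fin (n + 1)) T₂ hT₂
    (by simp)
  obtain ⟨g, hg1, hg2, hg3⟩ := grow (Gn G (nm X) hν ρ).Adj S hSne n hSd par hpar n le_rfl
  -- the common neighbours contain no large biclique
  have hfree : BicliqueFree (G.induce {v | v ∈ Z}) t := by
    have key : ∀ v, v ∈ Z → ∀ q ∈ U ∪ W, X v q := by
      intro v hv
      rw [hZ, mem_filter] at hv
      exact hv.2.2
    intro A B hA hB' h
    have hmem : ∀ a : {v | v ∈ Z}, ∀ q ∈ U ∪ W, G.Adj a.1 q := by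
      intro a q hq
      exact hXA _ _ (key a.1 a.2 q hq)
    let e : {v | v ∈ Z} ↪ Ω := Function.Embedding.subtype _
    refine hK ![A.map e, B.map e, U, W] ?_ ?_
    · intro i
      fin_cases i
      · show (A.map e).card = t
        rw [card_map, hA]
      · show (B.map e).card = t
        rw [card_map, hB']
      · exact hU
      · exact hW
    · have c1 : ∀ a ∈ A.map e, ∀ b ∈ B.map e, G.Adj a b := by
        intro a ha b hb
        obtain ⟨a', ha', rfl⟩ := mem_map.1 ha
        obtain ⟨b', hb', rfl⟩ := mem_map.1 hb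
        exact h a' ha' b' hb'
      have c2 : ∀ a ∈ A.map e, ∀ b ∈ U, G.Adj a b := by
        intro a ha b hb
        obtain ⟨a', ha', rfl⟩ := mem_map.1 ha
        exact hmem a' b (mem_union_left _ hb)
      have c3 : ∀ a ∈ A.map e, ∀ b ∈ W, G.Adj a b := by
        intro a ha b hb
        obtain ⟨a', ha', rfl⟩ := mem_map.1 ha
        exact hmem a' b (mem_union_right _ hb)
      have c4 : ∀ a ∈ B.map e, ∀ b ∈ U, G.Adj a b := by
        intro a ha b hb
        obtain ⟨a', ha', rfl⟩ := mem_map.1 ha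
        exact hmem a' b (mem_union_left _ hb)
      have c5 : ∀ a ∈ B.map e, ∀ b ∈ W, G.Adj a b := by
        intro a ha b hb
        obtain ⟨a', ha', rfl⟩ := mem_map.1 ha
        exact hmem a' b (mem_union_right _ hb)
      have c6 : ∀ a ∈ U, ∀ b ∈ W, G.Adj a b := fun a ha b hb => (hUW a ha b hb).1
      intro i j hij
      fin_cases i <;> fin_cases j
      all_goals first
        | exact absurd hij (by decide)
        | exact c1
        | exact c2
        | exact c3
        | exact c4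
        | exact c5
        | exact c6
  have hcont : (TN N).IsContained (G.induce {v | v ∈ Z}) := by
    refine hc.trans ?_
    have hmemZ : ∀ x, g (f x) ∈ Z := fun x => hSZ (hg1 _ (by have := hfn x; omega))
    have hedge : ∀ x y, f x < f y → T₂.Adj x y → G.Adj (g (f x)) (g (f y)) := by
      intro x y hxy h
      rw [hadj x y hxy] at h
      have h2 := hg2 (f y) (by omega) (by have := hfn y; omega)
      rw [h] at h2
      exact h2.1
    refine ⟨⟨⟨fun x => ⟨g (f x), hmemZ x⟩, ?_⟩, ?_⟩⟩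
    · intro x y h
      show G.Adj (g (f x)) (g (f y))
      rcases lt_trichotomy (f x) (f y) with h2 | h2 | h2
      · exact hedge x y h2 h
      · exact absurd (hf h2) h.ne
      · exact (hedge y x h2 h.symm).symm
    · intro x y h
      have h3 : g (f x) = g (f y) := congrArg Subtype.val h
      rcases lt_trichotomy (f x) (f y) with h2 | h2 | h2
      · exact absurd h3 (hg3 _ _ h2 (by have := hfn y; omega))
      · exact hf h2
      · exact absurd h3.symm (hg3 _ _ h2 (by have := hfn x; omega))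
  obtain ⟨i⟩ := hN _ _ hfree hcont
  exact hemp.false (i.trans (SimpleGraph.Embedding.induce {v | v ∈ Z}))

end

/-- the near adjacent pairs can be coloured -/
theorem near_col4 {m : ℕ} (T : SimpleGraph (Fin m)) (hT : T.IsTree) (t : ℕ) (ht : 1 ≤ t)
    (k : ℕ) :
    ∃ (C₀ : ℕ) (ρ : ℝ), 0 < ρ ∧ ρ ≤ 1 ∧ ∀ (Ω I : Type) [Fintype Ω] (G : SimpleGraph Ω)
      (cl : Ω → Ω → I), ∀ (hS : Sc cl), Iv cl G.Adj → G.CliqueFree (k + 1) → NoM G t →
      IsEmpty (T ↪g G) →
      ∀ (X : Ω → Ω → Prop) (hX : Iv cl X), (∀ x y, X x y → G.Adj x y) →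
        ∀ h0 : ∀ x, 0 < dg X x, (Gn G (nm X) (nm_mt hS hX h0) ρ).Colorable C₀ := by
  obtain ⟨N, hN⟩ := tree_subgraph T hT t
  have : Finite (SN N) := (SN_finite N).to_subtype
  obtain ⟨T₃, hT₃, ⟨e₃⟩⟩ := Pool.Agent.H367R3.forest_in_tree
    ((TN N).comap (Finite.equivFin (SN N)).symm)
    ((SimpleGraph.Iso.comap (Finite.equivFin (SN N)).symm (TN N)).isAcyclic_iff.2 (TN_acyclic N))
  have hcont : (TN N).IsContained T₃ := by
    have h1 : (TN N).IsContained ((TN N).comap (Finite.equivFin (SN N)).symm) :=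
      ⟨(SimpleGraph.Iso.comap (Finite.equivFin (SN N)).symm (TN N)).symm.toCopy⟩
    exact h1.trans ⟨e₃.toCopy⟩
  obtain ⟨m', F', f₁, hF', h₁⟩ := added T hT.2 t
  obtain ⟨T', hT', ⟨e₁⟩⟩ := Pool.Agent.H367R3.forest_in_tree F' hF'
  obtain ⟨m₂, F₂, f₂, -, h₂⟩ := added T' hT'.2 t
  have ht' : (1 : ℝ) ≤ t := by exact_mod_cast ht
  obtain ⟨R, hR⟩ : ∃ R : ℝ, R = 1 / (32 * t) := ⟨_, rfl⟩
  obtain ⟨ρ, hρ⟩ : ∃ ρ : ℝ, ρ = R / (m' + 1) := ⟨_, rfl⟩
  have hR0 : 0 < R := by rw [hR]; positivity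
  have hm0 : (0 : ℝ) ≤ m' := Nat.cast_nonneg _
  have hρ0 : 0 < ρ := by rw [hρ]; positivity
  have hR1 : R ≤ 1 / 4 := by
    rw [hR]
    apply one_div_le_one_div_of_le (by norm_num)
    linarith
  have hρR : (m' + 1) * ρ = R := by rw [hρ]; field_simp
  have hρR' : ρ ≤ R := by nlinarith
  refine ⟨max (4 * Nat.card (SN N) + 1) ((range (k + 1)).sup f₂), ρ, hρ0, by linarith, ?_⟩
  intro Ω I _ G cl hS hG hcf hK hemp X hX hXA h0
  have hν := nm_mt hS hX h0
  by_cases hdeg : ∀ x, dg (Gn G (nm X) hν ρ).Adj x ≤ 4 * Nat.card (SN N)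
  · refine SimpleGraph.Colorable.mono (le_max_left _ _) ?_
    apply Pool.Agent.Y394.AT.colorable_of_deg
    intro v
    refine le_trans (le_of_eq ?_) (hdeg v)
    unfold dg
    congr 1
  push Not at hdeg
  obtain ⟨u₀, hu₀⟩ := hdeg
  have hfree := free4 T t N _ ht hN T₃ hT₃ hcont hS hG hX hXA h0 ρ R (by linarith) (le_of_eq hR)
    hK hemp u₀ hu₀
  have hfreeρ : BicliqueFree (Gn G (nm X) hν ρ) t := by
    intro A B hA hB h
    exact hfree A B hA hB fun a ha b hb => ⟨(h a ha b hb).1, (h a ha b hb).2.trans hρR'⟩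
  -- no induced copy of `T'`
  have hno : ¬ T'.IsIndContained (Gn G (nm X) hν ρ) := by
    rintro ⟨e⟩
    have hw : ∀ (a b : Fin (m' + 1)) (p : T'.Walk a b), nm X (e a) (e b) ≤ p.length * ρ := by
      intro a b p
      induction p with
      | nil => simp [hν.zero]
      | @cons u v w h p ih =>
        have h1 : (Gn G (nm X) hν ρ).Adj (e u) (e v) := e.map_rel_iff.2 h
        have h2 := hν.tri (e u) (e v) (e w)
        rw [SimpleGraph.Walk.length_cons]
        push_cast
        have := h1.2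
        linarith
    have hle : ∀ a b : Fin (m' + 1), nm X (e a) (e b) ≤ R := by
      intro a b
      obtain ⟨p, hp⟩ := (hT'.1.preconnected a b).exists_isPath
      have h1 := hp.length_lt
      rw [Fintype.card_fin] at h1
      have h2 := hw a b p
      have h4 : (p.length : ℝ) ≤ m' + 1 := by
        have : p.length ≤ m' + 1 := by omega
        exact_mod_cast this
      calc nm X (e a) (e b) ≤ p.length * ρ := h2
        _ ≤ (m' + 1) * ρ := mul_le_mul_of_nonneg_right h4 hρ0.le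
        _ = R := hρR
    let g : F' ↪g Gn G (nm X) hν ρ := e₁.trans e
    let g' : Fin m' ↪ Ω := g.toEmbedding
    have hg : ∀ a b, nm X (g' a) (g' b) ≤ R := fun a b => hle (e₁ a) (e₁ b)
    have h3 := (h₁ (Fin m') (G.comap g') ((Gn G (nm X) hν ρ).comap g') ?_ ?_ ?_).1
    · apply h3
      exact ⟨{ toFun := id
               inj' := Function.injective_id
               map_rel_iff' := by
                 intro a b
                 exact g.map_rel_iff' }⟩
    · intro a b h
      exact h.1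
    · intro A B hA hB h
      refine hfree (A.map g') (B.map g') (by rw [card_map, hA]) (by rw [card_map, hB]) ?_
      intro a ha b hb
      rw [mem_map] at ha hb
      obtain ⟨a', ha', rfl⟩ := ha
      obtain ⟨b', hb', rfl⟩ := hb
      have h4 := h a' ha' b' hb'
      rw [SimpleGraph.sdiff_adj] at h4
      exact ⟨h4.1, hg a' b'⟩
    · rintro ⟨i⟩
      exact hemp.false (i.trans (SimpleGraph.Embedding.comap g' G))
  -- colouring
  have h3 := (h₂ Ω (Gn G (nm X) hν ρ) ⊥ bot_le (by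
    intro A B hA hB h
    exact hfreeρ A B hA hB fun a ha b hb => (SimpleGraph.sdiff_adj _ _ _ _ |>.1 (h a ha b hb)).1)
    hno).2
  have hcl : (Gn G (nm X) hν ρ).cliqueNum ≤ k := by
    have hcf' : (Gn G (nm X) hν ρ).CliqueFree (k + 1) := hcf.anti fun x y h => h.1
    by_contra hcon
    push Not at hcon
    obtain ⟨s, hs⟩ := (Gn G (nm X) hν ρ).exists_isNClique_cliqueNum
    exact hcf'.mono (by omega) s hs
  have hbot : (⊥ : SimpleGraph Ω).chromaticNumber ≤ 1 := by
    have h4 : (⊥ : SimpleGraph Ω).Colorable 1 :=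
      ⟨SimpleGraph.Coloring.mk (fun _ => 0) (by intro v w h; exact absurd h (by simp))⟩
    exact_mod_cast h4.chromaticNumber_le
  have h5 : (Gn G (nm X) hν ρ).chromaticNumber ≤ (((range (k + 1)).sup f₂ : ℕ) : ℕ∞) := by
    refine h3.trans ?_
    calc (f₂ (Gn G (nm X) hν ρ).cliqueNum : ℕ∞) * (⊥ : SimpleGraph Ω).chromaticNumber
        ≤ (f₂ (Gn G (nm X) hν ρ).cliqueNum : ℕ∞) * 1 := by gcongr
      _ = (f₂ (Gn G (nm X) hν ρ).cliqueNum : ℕ∞) := mul_one _
      _ ≤ _ := by
        exact_mod_cast Pool.Agent.X60.GenTree.le_sup_range f₂ hcl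
  exact (SimpleGraph.chromaticNumber_le_iff_colorable.1 h5).mono (le_max_right _ _)

end Pool.Agent.H57.BF
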