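import Pool.Agent.H57.BF.Four
import Pool.Agent.H57.FK.Parts

/-!
# Unions of classes of commutative association schemes without an induced complete 4-partite graph
-/

set_option autoImplicit false
set_option linter.unusedSectionVars false

open Finset
open scoped Classical

namespace Pool.Agent.H57.BF

open Pool.Agent.H57.AS (Sc Iv Mt nm tn ct dg br nm_mt tn_mt ct_symm ct_swap dg_eq fuse CommScheme
  orb orb_iff parts)
open Pool.Agent.H57.FK (Gn covered colourable orb_sc)

/-- the theorem for trees and symmetric schemes -/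
theorem gs_tree4 (t : ℕ) (ht : 1 ≤ t) (k : ℕ) (m : ℕ) (T : SimpleGraph (Fin (m + 1)))
    (hT : T.IsTree) :
    ∃ C : ℕ, ∀ (Ω I : Type) [Fintype Ω] (G : SimpleGraph Ω) (cl : Ω → Ω → I), Sc cl →
      Iv cl G.Adj → G.CliqueFree (k + 1) → NoM G t → IsEmpty (T ↪g G) → G.Colorable C := by
  obtain ⟨C₀, ρ, hρ0, hρle, hC₀⟩ := near_col4 T hT t ht k
  obtain ⟨par, f, hf, hfn, hpar, hadj⟩ := Pool.Agent.K4H78.TW.tree_order m (Fin (m + 1)) T hT
    (by simp)
  obtain ⟨N₀, hN₀⟩ := Pool.Agent.W259.GS.noShatter T hT.2.colorable_two (k + 1 + 1)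
  obtain ⟨κ, N, K, hκ, hκ2, hκρ, hN, hcov⟩ := covered (k + 1) (by omega) ρ hρ0 hρle m par hpar
    N₀ T hT
  refine ⟨((⌊N * K⌋₊ + 1) * (C₀ + 1)) ^ ⌊N⌋₊, ?_⟩
  intro Ω I _ G cl hS hA hcf hnom hemp
  have hK : G.CliqueFree (k + 1 + 1) := hcf.mono (by omega)
  by_cases hne : Nonempty Ω
  swap
  · rw [not_nonempty_iff] at hne
    exact SimpleGraph.Colorable.of_isEmpty _
  apply colourable hS (fun x y => Iff.rfl) hκ hκ2 hκρ
  apply hcov Ω I G cl G.Adj
  refine ⟨hS, hA, fun x y => Iff.rfl, hK, ?_, ?_, fun Y hY => hN₀ Ω _ Y hK hemp hY, ?_, ?_, hne⟩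
  · -- near adjacent pairs
    intro X hX hXA h0
    obtain ⟨c⟩ := hC₀ Ω I G cl hS hA hcf hnom hemp X hX hXA h0
    refine ⟨fun x => (c x).castSucc, ?_⟩
    intro x y hxy hc
    by_contra hcon
    push Not at hcon
    have h7 : (Gn G (nm X) (nm_mt hS hX h0) ρ).Adj x y := ⟨hxy, by linarith⟩
    exact c.valid h7 (Fin.castSucc_injective _ hc)
  · refine ⟨fun _ => 0, ?_⟩
    intro x y hxy _
    unfold tn
    rw [if_neg hxy.ne]
    exact hρle
  · rintro ⟨w, hw⟩
    have hinj : ∀ x y, f x < f y → w (f x) ≠ w (f y) := by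
      intro x y hxy h
      exact (hw (f x) (f y) hxy (by have := hfn y; omega)).2.2 h
    have hadj' : ∀ x y, f x < f y → (G.Adj (w (f x)) (w (f y)) ↔ T.Adj x y) := by
      intro x y hxy
      rw [hadj x y hxy]
      have := hw (f x) (f y) hxy (by have := hfn y; omega)
      constructor
      · intro h
        by_contra h2
        exact this.2.1 h2 h
      · exact this.1
    let g : T ↪g G :=
      { toFun := fun v => w (f v)
        inj' := by
          intro x y hxy
          rcases lt_trichotomy (f x) (f y) with h | h | h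
          · exact absurd hxy (hinj x y h)
          · exact hf h
          · exact absurd hxy.symm (hinj y x h)
        map_rel_iff' := by
          intro x y
          show G.Adj (w (f x)) (w (f y)) ↔ T.Adj x y
          rcases lt_trichotomy (f x) (f y) with h | h | h
          · exact hadj' x y h
          · rw [hf h]; simp
          · rw [SimpleGraph.adj_comm, hadj' y x h, T.adj_comm] }
    exact hemp.false g
  · intro g hg1 hg2
    let g' : T ↪g G :=
      { toFun := g
        inj' := hg1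
        map_rel_iff' := by
          intro x y
          exact (hg2 x y).symm }
    exact hemp.false g'

/-- the theorem for symmetric schemes -/
theorem gs_sym4 {m : ℕ} (F : SimpleGraph (Fin m)) (hF : F.IsAcyclic) (t : ℕ) (ht : 1 ≤ t)
    (k : ℕ) :
    ∃ C : ℕ, ∀ (Ω I : Type) [Fintype Ω] (G : SimpleGraph Ω) (cl : Ω → Ω → I), Sc cl →
      Iv cl G.Adj → G.CliqueFree (k + 1) → NoM G t → IsEmpty (F ↪g G) → G.Colorable C := by
  obtain ⟨T, hT, ⟨e⟩⟩ := Pool.Agent.H367R3.forest_in_tree F hF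
  obtain ⟨C, hC⟩ := gs_tree4 t ht k m T hT
  refine ⟨C, ?_⟩
  intro Ω I _ G cl hS hA hcf hK hemp
  exact hC Ω I G cl hS hA hcf hK ⟨fun g => hemp.false (e.trans g)⟩

/-- the theorem for commutative schemes -/
theorem gs_comm4 {m : ℕ} (F : SimpleGraph (Fin m)) (hF : F.IsAcyclic) (t : ℕ) (ht : 1 ≤ t)
    (k : ℕ) :
    ∃ C : ℕ, ∀ (Ω I : Type) [Finite Ω] (G : SimpleGraph Ω) (cl : Ω → Ω → I), CommScheme cl →
      (∀ x y x' y', cl x y = cl x' y' → G.Adj x y → G.Adj x' y') → G.CliqueFree (k + 1) →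
      NoM G t → IsEmpty (F ↪g G) → G.Colorable C := by
  obtain ⟨C, hC⟩ := gs_sym4 F hF t ht k
  refine ⟨C, ?_⟩
  intro Ω I _ G cl hcl hG hcf hK hemp
  have : Fintype Ω := Fintype.ofFinite Ω
  refine hC Ω (Sym2 I) G (fun x y => s(cl x y, cl y x)) (fuse hcl) ?_ hcf hK hemp
  intro x y x' y' hxy h
  simp only [Sym2.eq_iff] at hxy
  rcases hxy with hxy | hxy
  · exact hG _ _ _ _ hxy.1 h
  · exact (hG _ _ _ _ hxy.1 h).symm

/-- the theorem for generously transitive graphs -/
theorem gs_gen4 {m : ℕ} (F : SimpleGraph (Fin m)) (hF : F.IsAcyclic) (t : ℕ) (ht : 1 ≤ t)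
    (k : ℕ) :
    ∃ C : ℕ, ∀ (Ω : Type) [Finite Ω] (G : SimpleGraph Ω),
      (∀ x y : Ω, ∃ σ : G ≃g G, σ x = y ∧ σ y = x) → G.CliqueFree (k + 1) → NoM G t →
      IsEmpty (F ↪g G) → G.Colorable C := by
  obtain ⟨C, hC⟩ := gs_sym4 F hF t ht k
  refine ⟨C, ?_⟩
  intro Ω _ G hgen hcf hK hemp
  have : Fintype Ω := Fintype.ofFinite Ω
  obtain ⟨h1, h2⟩ := orb_sc G hgen
  exact hC Ω (Set (Ω × Ω)) G (orb G) h1 h2 hcf hK hemp

/-- Ramsey's theorem: from subgraphs to induced subgraphs -/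
theorem nom_of_induced (t k : ℕ) : ∃ R : ℕ, 1 ≤ R ∧ ∀ (V : Type) (G : SimpleGraph V),
    G.CliqueFree (k + 1) → ¬ (SimpleGraph.completeEquipartiteGraph 4 t).IsIndContained G →
      NoM G R := by
  obtain ⟨R, hR⟩ := Pool.Agent.X60.GenTree.exists_indep t k
  refine ⟨R + 1, by omega, ?_⟩
  intro V G hcf hind P hP hadj
  have h1 : ∀ i, ∃ J ⊆ P i, J.card = t ∧ ∀ a ∈ J, ∀ b ∈ J, ¬ G.Adj a b := by
    intro i
    apply hR V G (P i)
    · intro K _ hK
      by_contra hcon
      push Not at hcon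
      exact hcf.mono (by omega : k + 1 ≤ K.card) K ⟨hK, rfl⟩
    · rw [hP i]
      omega
  choose J hJ hJc hJi using h1
  have hadj' : ∀ i j, i ≠ j → ∀ a ∈ J i, ∀ b ∈ J j, G.Adj a b := by
    intro i j hij a ha b hb
    rcases lt_or_gt_of_ne hij with h | h
    · exact hadj i j h a (hJ i ha) b (hJ j hb)
    · exact (hadj j i h b (hJ j hb) a (hJ i ha)).symm
  let e : ∀ i, Fin t ≃ J i := fun i => (J i).equivFinOfCardEq (hJc i) |>.symm
  apply hind
  refine ⟨⟨⟨fun p => (e p.1 p.2 : V), ?_⟩, ?_⟩⟩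
  · rintro ⟨i, a⟩ ⟨j, b⟩ h
    have h' : (e i a : V) = (e j b : V) := h
    by_cases hij : i = j
    · subst hij
      have h2 : e i a = e i b := Subtype.ext h'
      rw [(e i).injective h2]
    · exact absurd h' (hadj' i j hij _ (e i a).2 _ (e j b).2).ne
  · rintro ⟨i, a⟩ ⟨j, b⟩
    show G.Adj (e i a : V) (e j b : V) ↔ (SimpleGraph.completeEquipartiteGraph 4 t).Adj (i, a) (j, b)
    rw [SimpleGraph.completeEquipartiteGraph_adj]
    constructor
    · intro h hij
      have hij' : i = j := hij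
      subst hij'
      exact hJi i _ (e i a).2 _ (e i b).2 h
    · intro h
      exact hadj' i j h _ (e i a).2 _ (e j b).2

/-- the theorem for schemes on the parts -/
theorem gs_parts4 {m : ℕ} (F : SimpleGraph (Fin m)) (hF : F.IsAcyclic) (t : ℕ) :
    ∃ f : ℕ → ℕ, ∀ (V : Type) [Finite V] (G : SimpleGraph V) (r : ℕ) (part : V → Fin r),
      (∀ i : Fin r,
        (∃ (I : Type) (cl : {v : V // part v = i} → {v : V // part v = i} → I), CommScheme cl ∧
          ∀ x y x' y', cl x y = cl x' y' → G.Adj x y → G.Adj x' y') ∨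
        (∀ x y : {v : V | part v = i}, ∃ σ : G.induce {v : V | part v = i} ≃g
          G.induce {v : V | part v = i}, σ x = y ∧ σ y = x)) →
      ¬ (SimpleGraph.completeEquipartiteGraph 4 t).IsIndContained G →
      ¬ F.IsIndContained G → G.Colorable (f G.cliqueNum * r) := by
  choose R hR hRV using fun k => nom_of_induced t k
  choose C₁ hC₁ using fun k => gs_comm4 F hF (R k) (hR k) k
  choose C₂ hC₂ using fun k => gs_gen4 F hF (R k) (hR k) k
  refine ⟨fun k => max (C₁ k) (C₂ k), ?_⟩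
  intro V _ G r part h hfour hind
  apply parts part
  intro i
  have hK : G.CliqueFree (G.cliqueNum + 1) := by
    have : Fintype V := Fintype.ofFinite V
    intro s hs
    have h1 := hs.isClique.card_le_cliqueNum
    rw [hs.card_eq] at h1
    omega
  have hKi : (G.induce {v | part v = i}).CliqueFree (G.cliqueNum + 1) :=
    SimpleGraph.CliqueFree.comap ⟨(SimpleGraph.Embedding.induce {v | part v = i}).toCopy⟩ hK
  have hMi : NoM (G.induce {v | part v = i}) (R G.cliqueNum) := by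
    apply hRV _ _ _ hKi
    rintro ⟨e⟩
    exact hfour ⟨e.trans (SimpleGraph.Embedding.induce {v | part v = i})⟩
  have hemp : IsEmpty (F ↪g G.induce {v | part v = i}) :=
    ⟨fun f => hind ⟨f.trans (SimpleGraph.Embedding.induce {v | part v = i})⟩⟩
  rcases h i with ⟨I, cl, hcl, hadj⟩ | hgen
  · exact (hC₁ _ {v // part v = i} I (G.induce {v | part v = i}) cl hcl
      (fun x y x' y' hxy h1 => hadj x y x' y' hxy h1) hKi hMi hemp).mono (le_max_left _ _)
  · exact (hC₂ _ {v | part v = i} (G.induce {v | part v = i}) hgen hKi hMi hemp).mono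
      (le_max_right _ _)

end Pool.Agent.H57.BF
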