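import Pool.Agent.H57.BF.Star
import Pool.Graph.R_pool_sql_team_seeded_64922ed1.X60.GenTree3
import Pool.Graph.R_seed8.Y394.AT.Grow

/-!
# The near adjacent pairs: no large bicliques, bounded chromatic number
-/

set_option autoImplicit false
set_option linter.unusedSectionVars false

open Finset
open scoped Classical

namespace Pool.Agent.H57.BF

open Pool.Agent.H57.AS (Sc Iv Mt nm tn ct dg br nm_mt tn_mt ct_symm ct_swap dg_eq)
open Pool.Agent.H57.FK (Gn)
open Pool.Agent.X60.GenTree (BicliqueFree added)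

theorem nok_clique {V : Type} {G : SimpleGraph V} {t : ℕ} (h : NoK G t) :
    G.CliqueFree (3 * t + 1) := by
  intro s hs
  have hsc : s.card = 3 * t + 1 := hs.card_eq
  obtain ⟨z, hz⟩ : s.Nonempty := by
    rw [← card_pos]
    omega
  have h1 : (s.erase z).card = 3 * t := by
    rw [card_erase_of_mem hz]
    omega
  obtain ⟨P, hP, hPc⟩ := exists_subset_card_eq (s := s.erase z) (n := t) (by omega)
  have h2 : (s.erase z \ P).card = 2 * t := by
    rw [card_sdiff_of_subset hP]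
    omega
  obtain ⟨U, hU, hUc⟩ := exists_subset_card_eq (s := s.erase z \ P) (n := t) (by omega)
  have h3 : ((s.erase z \ P) \ U).card = t := by
    rw [card_sdiff_of_subset hU]
    omega
  have hadj : ∀ a ∈ s, ∀ b ∈ s, a ≠ b → G.Adj a b := fun a ha b hb hab => hs.isClique ha hb hab
  have mP : ∀ a ∈ P, a ∈ s ∧ a ≠ z := fun a ha =>
    ⟨mem_of_mem_erase (hP ha), ne_of_mem_erase (hP ha)⟩
  have mU : ∀ a ∈ U, a ∈ s ∧ a ≠ z ∧ a ∉ P := fun a ha => by
    have h4 := mem_sdiff.1 (hU ha)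
    exact ⟨mem_of_mem_erase h4.1, ne_of_mem_erase h4.1, h4.2⟩
  have mW : ∀ a ∈ (s.erase z \ P) \ U, a ∈ s ∧ a ≠ z ∧ a ∉ P ∧ a ∉ U := fun a ha => by
    have h4 := mem_sdiff.1 ha
    have h5 := mem_sdiff.1 h4.1
    exact ⟨mem_of_mem_erase h5.1, ne_of_mem_erase h5.1, h5.2, h4.2⟩
  refine h z P U ((s.erase z \ P) \ U) ⟨hPc, hUc, h3, ?_, ?_, ?_, ?_, ?_, ?_⟩
  · exact fun p hp => hadj _ hz _ (mP p hp).1 (mP p hp).2.symm
  · exact fun p hp => hadj _ hz _ (mU p hp).1 (mU p hp).2.1.symm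
  · exact fun p hp => hadj _ hz _ (mW p hp).1 (mW p hp).2.1.symm
  · intro p hp u hu
    exact hadj _ (mP p hp).1 _ (mU u hu).1 fun h => (mU u hu).2.2 (h ▸ hp)
  · intro p hp u hu
    exact hadj _ (mP p hp).1 _ (mW u hu).1 fun h => (mW u hu).2.2.1 (h ▸ hp)
  · intro p hp u hu
    exact hadj _ (mU p hp).1 _ (mW u hu).1 fun h => (mW u hu).2.2.2 (h ▸ hp)

section
variable {Ω I : Type} [Fintype Ω] {cl : Ω → Ω → I}

theorem gn_iv {G : SimpleGraph Ω} (hG : Iv cl G.Adj) {ν : Ω → Ω → ℝ} (hν : Mt cl ν) (ρ : ℝ) :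
    Iv cl (Gn G ν hν ρ).Adj := by
  intro x y x' y' h h7
  exact ⟨hG _ _ _ _ h h7.1, by rw [← hν.inv _ _ _ _ h]; exact h7.2⟩

/-- near adjacent pairs form a graph without large bicliques, or of small degree -/
theorem free {G : SimpleGraph Ω} (hS : Sc cl) (hG : Iv cl G.Adj) {X : Ω → Ω → Prop}
    (hX : Iv cl X) (hXA : ∀ x y, X x y → G.Adj x y) (h0 : ∀ x, 0 < dg X x) (t : ℕ) (ht : 1 ≤ t)
    (ρ R : ℝ) (hρ : ρ ≤ 1 / 4) (hR : R ≤ 1 / (32 * t)) (hK : NoK G t) (u₀ : Ω)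
    (hd : 2 * t < dg (Gn G (nm X) (nm_mt hS hX h0) ρ).Adj u₀) :
    BicliqueFree (Gn G (nm X) (nm_mt hS hX h0) R) t := by
  intro U W hU hW hUW
  have hν := nm_mt hS hX h0
  obtain ⟨u, hu⟩ : U.Nonempty := by
    rw [← card_pos]
    omega
  obtain ⟨w, hw⟩ : W.Nonempty := by
    rw [← card_pos]
    omega
  have ht' : (1 : ℝ) ≤ t := by exact_mod_cast ht
  have hB := gn_iv (cl := cl) hG hν ρ
  have hR0 : 0 ≤ R := by
    have h1 := (hUW u hu w hw).2
    have h2 := hν.tri u w u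
    rw [hν.zero, hν.symm w u] at h2
    linarith
  have hQ : ∀ q ∈ U ∪ W, nm X u q ≤ 2 * R := by
    intro q hq
    rcases mem_union.1 hq with h | h
    · have h1 := (hUW u hu w hw).2
      have h2 := (hUW q h w hw).2
      have h3 := hν.tri u w q
      rw [hν.symm w q] at h3
      linarith
    · have := (hUW u hu q h).2
      linarith
  have hQc : ((U ∪ W).card : ℝ) ≤ 2 * t := by
    have h1 := card_union_le U W
    rw [hU, hW] at h1
    have h2 : (U ∪ W).card ≤ 2 * t := by omega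
    exact_mod_cast h2
  have hRt : R * (32 * t) ≤ 1 := by
    rw [le_div_iff₀ (by positivity)] at hR
    exact hR
  have hsum : ρ + 2 * (U ∪ W).card * (2 * R) ≤ 1 / 2 := by
    have h1 : ((U ∪ W).card : ℝ) * R ≤ 2 * t * R := mul_le_mul_of_nonneg_right hQc hR0
    nlinarith
  have hd' : 2 * t < dg (Gn G (nm X) hν ρ).Adj u := by
    rw [dg_eq hS hB u u₀]
    exact hd
  obtain ⟨z, h1, h2, h3⟩ := star (B := (Gn G (nm X) hν ρ).Adj) hS hX hB h0 ρ (2 * R)
    (fun x y h => h.2) u (U ∪ W) hQ t hsum hd'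
  obtain ⟨P, hP, hPc⟩ := exists_subset_card_eq h3
  refine hK z P U W ⟨hPc, hU, hW, ?_, ?_, ?_, ?_, ?_, ?_⟩
  · intro p hp
    exact (mem_filter.1 (hP hp)).2.1.1
  · intro q hq
    exact hXA _ _ (h2 q (mem_union_left _ hq))
  · intro q hq
    exact hXA _ _ (h2 q (mem_union_right _ hq))
  · intro p hp q hq
    exact hXA _ _ ((mem_filter.1 (hP hp)).2.2.2 q (mem_union_left _ hq))
  · intro p hp q hq
    exact hXA _ _ ((mem_filter.1 (hP hp)).2.2.2 q (mem_union_right _ hq))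
  · intro p hp q hq
    exact (hUW p hp q hq).1

end

/-- the near adjacent pairs can be coloured -/
theorem near_col {m : ℕ} (T : SimpleGraph (Fin m)) (hT : T.IsAcyclic) (t : ℕ) (ht : 1 ≤ t) :
    ∃ (C₀ : ℕ) (ρ : ℝ), 0 < ρ ∧ ρ ≤ 1 ∧ ∀ (Ω I : Type) [Fintype Ω] (G : SimpleGraph Ω)
      (cl : Ω → Ω → I), ∀ (hS : Sc cl), Iv cl G.Adj → NoK G t → IsEmpty (T ↪g G) →
      ∀ (X : Ω → Ω → Prop) (hX : Iv cl X), (∀ x y, X x y → G.Adj x y) →
        ∀ h0 : ∀ x, 0 < dg X x, (Gn G (nm X) (nm_mt hS hX h0) ρ).Colorable C₀ := by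
  obtain ⟨m', F', f₁, hF', h₁⟩ := added T hT t
  obtain ⟨T', hT', ⟨e₁⟩⟩ := Pool.Agent.H367R3.forest_in_tree F' hF'
  obtain ⟨m₂, F₂, f₂, -, h₂⟩ := added T' hT'.2 t
  have ht' : (1 : ℝ) ≤ t := by exact_mod_cast ht
  obtain ⟨R, hR⟩ : ∃ R : ℝ, R = 1 / (32 * t) := ⟨_, rfl⟩
  obtain ⟨ρ, hρ⟩ : ∃ ρ : ℝ, ρ = R / (m' + 1) := ⟨_, rfl⟩
  have hR0 : 0 < R := by rw [hR]; positivity
  have hm0 : (0 : ℝ) ≤ m' := Nat.cast_nonneg _
  have hρ0 : 0 < ρ := by rw [hρ]; positivity
  have hR1 : R ≤ 1 / 4 := by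
    rw [hR]
    apply one_div_le_one_div_of_le (by norm_num)
    linarith
  have hρR : (m' + 1) * ρ = R := by rw [hρ]; field_simp
  have hρR' : ρ ≤ R := by nlinarith
  refine ⟨max (2 * t + 1) ((range (3 * t + 1)).sup f₂), ρ, hρ0, by linarith, ?_⟩
  intro Ω I _ G cl hS hG hK hemp X hX hXA h0
  have hν := nm_mt hS hX h0
  by_cases hdeg : ∀ x, dg (Gn G (nm X) hν ρ).Adj x ≤ 2 * t
  · refine SimpleGraph.Colorable.mono (le_max_left _ _) ?_
    apply Pool.Agent.Y394.AT.colorable_of_deg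
    intro v
    refine le_trans (le_of_eq ?_) (hdeg v)
    unfold dg
    congr 1
  push Not at hdeg
  obtain ⟨u₀, hu₀⟩ := hdeg
  have hfree := free hS hG hX hXA h0 t ht ρ R (by linarith) (le_of_eq hR) hK u₀ hu₀
  have hfreeρ : BicliqueFree (Gn G (nm X) hν ρ) t := by
    intro A B hA hB h
    exact hfree A B hA hB fun a ha b hb => ⟨(h a ha b hb).1, (h a ha b hb).2.trans hρR'⟩
  -- no induced copy of `T'`
  have hno : ¬ T'.IsIndContained (Gn G (nm X) hν ρ) := by
    rintro ⟨e⟩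
    have hw : ∀ (a b : Fin (m' + 1)) (p : T'.Walk a b), nm X (e a) (e b) ≤ p.length * ρ := by
      intro a b p
      induction p with
      | nil => simp [hν.zero]
      | @cons u v w h p ih =>
        have h1 : (Gn G (nm X) hν ρ).Adj (e u) (e v) := e.map_rel_iff.2 h
        have h2 := hν.tri (e u) (e v) (e w)
        rw [SimpleGraph.Walk.length_cons]
        push_cast
        have := h1.2
        linarith
    have hle : ∀ a b : Fin (m' + 1), nm X (e a) (e b) ≤ R := by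
      intro a b
      obtain ⟨p, hp⟩ := (hT'.1.preconnected a b).exists_isPath
      have h1 := hp.length_lt
      rw [Fintype.card_fin] at h1
      have h2 := hw a b p
      have h4 : (p.length : ℝ) ≤ m' + 1 := by
        have : p.length ≤ m' + 1 := by omega
        exact_mod_cast this
      calc nm X (e a) (e b) ≤ p.length * ρ := h2
        _ ≤ (m' + 1) * ρ := mul_le_mul_of_nonneg_right h4 hρ0.le
        _ = R := hρR
    let g : F' ↪g Gn G (nm X) hν ρ := e₁.trans e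
    let g' : Fin m' ↪ Ω := g.toEmbedding
    have hg : ∀ a b, nm X (g' a) (g' b) ≤ R := fun a b => hle (e₁ a) (e₁ b)
    have h3 := (h₁ (Fin m') (G.comap g') ((Gn G (nm X) hν ρ).comap g') ?_ ?_ ?_).1
    · apply h3
      exact ⟨{ toFun := id
               inj' := Function.injective_id
               map_rel_iff' := by
                 intro a b
                 exact g.map_rel_iff' }⟩
    · intro a b h
      exact h.1
    · intro A B hA hB h
      refine hfree (A.map g') (B.map g') (by rw [card_map, hA]) (by rw [card_map, hB]) ?_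
      intro a ha b hb
      rw [mem_map] at ha hb
      obtain ⟨a', ha', rfl⟩ := ha
      obtain ⟨b', hb', rfl⟩ := hb
      have h4 := h a' ha' b' hb'
      rw [SimpleGraph.sdiff_adj] at h4
      exact ⟨h4.1, hg a' b'⟩
    · rintro ⟨i⟩
      exact hemp.false (i.trans (SimpleGraph.Embedding.comap g' G))
  -- colouring
  have h3 := (h₂ Ω (Gn G (nm X) hν ρ) ⊥ bot_le (by
    intro A B hA hB h
    exact hfreeρ A B hA hB fun a ha b hb => (SimpleGraph.sdiff_adj _ _ _ _ |>.1 (h a ha b hb)).1)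
    hno).2
  have hcl : (Gn G (nm X) hν ρ).cliqueNum ≤ 3 * t := by
    have hcf : (Gn G (nm X) hν ρ).CliqueFree (3 * t + 1) :=
      (nok_clique hK).anti fun x y h => h.1
    by_contra hcon
    push Not at hcon
    obtain ⟨s, hs⟩ := (Gn G (nm X) hν ρ).exists_isNClique_cliqueNum
    exact hcf.mono (by omega) s hs
  have hbot : (⊥ : SimpleGraph Ω).chromaticNumber ≤ 1 := by
    have h4 : (⊥ : SimpleGraph Ω).Colorable 1 :=
      ⟨SimpleGraph.Coloring.mk (fun _ => 0) (by intro v w h; exact absurd h (by simp))⟩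
    exact_mod_cast h4.chromaticNumber_le
  have h5 : (Gn G (nm X) hν ρ).chromaticNumber ≤ (((range (3 * t + 1)).sup f₂ : ℕ) : ℕ∞) := by
    refine h3.trans ?_
    calc (f₂ (Gn G (nm X) hν ρ).cliqueNum : ℕ∞) * (⊥ : SimpleGraph Ω).chromaticNumber
        ≤ (f₂ (Gn G (nm X) hν ρ).cliqueNum : ℕ∞) * 1 := by gcongr
      _ = (f₂ (Gn G (nm X) hν ρ).cliqueNum : ℕ∞) := mul_one _
      _ ≤ _ := by
        exact_mod_cast Pool.Agent.X60.GenTree.le_sup_range f₂ hcl
  exact (SimpleGraph.chromaticNumber_le_iff_colorable.1 h5).mono (le_max_right _ _)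

end Pool.Agent.H57.BF
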