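import Pool.Agent.H57.FK.Main

/-!
# Complete 4-partite subgraphs from near pairs
-/

set_option autoImplicit false
set_option linter.unusedSectionVars false

open Finset
open scoped Classical

namespace Pool.Agent.H57.BF

open Pool.Agent.H57.AS (Sc Iv Mt nm tn ct dg br nm_mt tn_mt ct_symm ct_swap dg_eq)
open Pool.Agent.H57.FK (Gn)

/-- `z`, `P`, `U`, `W` form a complete 4-partite graph with parts of `1, t, t, t` vertices -/
def IsK {V : Type} (G : SimpleGraph V) (t : ℕ) (z : V) (P U W : Finset V) : Prop :=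
  P.card = t ∧ U.card = t ∧ W.card = t ∧ (∀ p ∈ P, G.Adj z p) ∧ (∀ u ∈ U, G.Adj z u) ∧
    (∀ w ∈ W, G.Adj z w) ∧ (∀ p ∈ P, ∀ u ∈ U, G.Adj p u) ∧ (∀ p ∈ P, ∀ w ∈ W, G.Adj p w) ∧
    ∀ u ∈ U, ∀ w ∈ W, G.Adj u w

/-- no complete 4-partite subgraph -/
def NoK {V : Type} (G : SimpleGraph V) (t : ℕ) : Prop := ∀ z P U W, ¬ IsK G t z P U W

section
variable {Ω I : Type} [Fintype Ω] {cl : Ω → Ω → I}

theorem near_pairs {X B : Ω → Ω → Prop} (hS : Sc cl) (hX : Iv cl X) (hB : Iv cl B)
    (h0 : ∀ x, 0 < dg X x) (ρ : ℝ) (hn : ∀ x y, B x y → nm X x y ≤ ρ) (u : Ω) :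
    (1 - ρ) * dg X u * dg B u ≤
      ((∑ z ∈ univ.filter fun z => X u z, ct B X z u : ℕ) : ℝ) := by
  have h1 : (∑ z ∈ univ.filter fun z => X u z, ct B X z u) =
      ∑ w ∈ univ.filter fun w => B u w, ct X X u w := by
    have e1 : ∀ z, ct B X z u = ∑ w, if X z w ∧ B w u then 1 else 0 := by
      intro z
      rw [ct_swap hS hB hX]
      unfold ct
      rw [card_filter]
    have e2 : ∀ w, ct X X u w = ∑ z, if X u z ∧ X z w then 1 else 0 := by
      intro w
      unfold ct
      rw [card_filter]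
    rw [sum_filter, sum_filter]
    have e3 : ∀ z, (if X u z then ct B X z u else 0) =
        ∑ w, if X u z ∧ X z w ∧ B w u then 1 else 0 := by
      intro z
      by_cases h : X u z
      · rw [if_pos h, e1]
        apply sum_congr rfl
        intro w _
        simp [h]
      · rw [if_neg h]
        simp [h]
    have e4 : ∀ w, (if B u w then ct X X u w else 0) =
        ∑ z, if X u z ∧ X z w ∧ B w u then 1 else 0 := by
      intro w
      by_cases h : B u w
      · have h' : B w u := (hB.comm hS _ _).1 h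
        rw [if_pos h, e2]
        apply sum_congr rfl
        intro z _
        simp [h']
      · have h' : ¬ B w u := fun h2 => h ((hB.comm hS _ _).1 h2)
        rw [if_neg h]
        simp [h']
    rw [sum_congr rfl fun z _ => e3 z, sum_congr rfl fun w _ => e4 w, sum_comm]
  rw [h1]
  push_cast
  have hd : (0 : ℝ) < dg X u := by exact_mod_cast h0 u
  have h2 : ∀ w ∈ univ.filter (fun w => B u w), (1 - ρ) * dg X u ≤ (ct X X u w : ℝ) := by
    intro w hw
    have h3 := hn u w (mem_filter.1 hw).2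
    unfold nm at h3
    have h4 : 1 - ρ ≤ (ct X X u w : ℝ) / dg X u := by linarith
    rwa [le_div_iff₀ hd] at h4
  have h3 := sum_le_sum h2
  rw [sum_const, nsmul_eq_mul] at h3
  have h4 : ((univ.filter fun w => B u w).card : ℝ) = dg B u := rfl
  rw [h4] at h3
  linarith

/-- a vertex with many near neighbours among the common neighbours -/
theorem star {X B : Ω → Ω → Prop} (hS : Sc cl) (hX : Iv cl X) (hB : Iv cl B)
    (h0 : ∀ x, 0 < dg X x) (ρ R : ℝ) (hn : ∀ x y, B x y → nm X x y ≤ ρ) (u : Ω) (Q : Finset Ω)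
    (hQ : ∀ q ∈ Q, nm X u q ≤ R) (t : ℕ) (hR : ρ + 2 * Q.card * R ≤ 1 / 2)
    (ht : 2 * t < dg B u) :
    ∃ z, X u z ∧ (∀ q ∈ Q, X z q) ∧
      t ≤ (univ.filter fun w => B z w ∧ X u w ∧ ∀ q ∈ Q, X w q).card := by
  by_contra hcon
  push Not at hcon
  obtain ⟨Nu, hNu⟩ : ∃ Nu : Finset Ω, Nu = univ.filter fun z => X u z := ⟨_, rfl⟩
  obtain ⟨W, hW⟩ : ∃ W : Finset Ω, W = Nu.filter fun z => ∀ q ∈ Q, X z q := ⟨_, rfl⟩
  obtain ⟨Bd, hBd⟩ : ∃ Bd : Finset Ω, Bd = Nu.filter fun z => ¬ ∀ q ∈ Q, X z q := ⟨_, rfl⟩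
  have hd : (0 : ℝ) < dg X u := by exact_mod_cast h0 u
  have hNc : Nu.card = dg X u := by rw [hNu]; rfl
  -- few bad vertices
  have hbad : (Bd.card : ℝ) ≤ Q.card * R * dg X u := by
    have h1 : Bd ⊆ Q.biUnion fun q => Nu.filter fun z => ¬ X z q := by
      intro z hz
      rw [hBd, mem_filter] at hz
      obtain ⟨h1, h2⟩ := hz
      push Not at h2
      obtain ⟨q, hq, h3⟩ := h2
      exact mem_biUnion.2 ⟨q, hq, mem_filter.2 ⟨h1, h3⟩⟩
    have h2 : ∀ q ∈ Q, ((Nu.filter fun z => ¬ X z q).card : ℝ) ≤ R * dg X u := by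
      intro q hq
      have h3 := hQ q hq
      have h4 : (Nu.filter fun z => X z q).card = ct X X u q := by
        rw [hNu, filter_filter]
        rfl
      have h5 : (Nu.filter fun z => X z q).card + (Nu.filter fun z => ¬ X z q).card = Nu.card :=
        card_filter_add_card_filter_not _
      have h6 : ((Nu.filter fun z => X z q).card : ℝ) + ((Nu.filter fun z => ¬ X z q).card : ℝ) =
          dg X u := by
        rw [← hNc]
        exact_mod_cast h5
      rw [h4] at h6
      unfold nm at h3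
      have h7 : 1 - R ≤ (ct X X u q : ℝ) / dg X u := by linarith
      rw [le_div_iff₀ hd] at h7
      linarith
    have h3 : (Bd.card : ℝ) ≤ ∑ q ∈ Q, ((Nu.filter fun z => ¬ X z q).card : ℝ) := by
      exact_mod_cast (card_le_card h1).trans card_biUnion_le
    have h4 := h3.trans (sum_le_sum h2)
    rw [sum_const, nsmul_eq_mul] at h4
    linarith
  -- the number of pairs
  have hP := near_pairs hS hX hB h0 ρ hn u
  rw [← hNu] at hP
  have hsplit : (∑ z ∈ Nu, ct B X z u) ≤ W.card * t + 2 * (Bd.card * dg B u) := by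
    have h1 : (∑ z ∈ Nu, ct B X z u) = (∑ z ∈ W, ct B X z u) + ∑ z ∈ Bd, ct B X z u := by
      rw [hW, hBd]
      exact (sum_filter_add_sum_filter_not _ _ _).symm
    have h2 : (∑ z ∈ Bd, ct B X z u) ≤ Bd.card * dg B u := by
      rw [← smul_eq_mul]
      apply sum_le_card_nsmul
      intro z _
      refine (Pool.Agent.H57.AS.ct_le_left z u).trans ?_
      rw [dg_eq hS hB z u]
    have h3 : (∑ z ∈ W, ct B X z u) ≤ W.card * t + Bd.card * dg B u := by
      have h4 : ∀ z ∈ W, ct B X z u ≤ t + (Bd.filter fun w => B z w).card := by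
        intro z hz
        rw [hW, mem_filter, hNu, mem_filter] at hz
        have h5 := hcon z hz.1.2 hz.2
        have h6 : ct B X z u ≤ (univ.filter fun w => B z w ∧ X u w ∧ ∀ q ∈ Q, X w q).card +
            (Bd.filter fun w => B z w).card := by
          unfold ct
          refine (card_le_card ?_).trans (card_union_le _ _)
          intro w hw
          rw [mem_filter] at hw
          have h7 : X u w := (hX.comm hS _ _).1 hw.2.2
          rw [mem_union]
          by_cases h8 : ∀ q ∈ Q, X w q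
          · left
            rw [mem_filter]
            exact ⟨mem_univ _, hw.2.1, h7, h8⟩
          · right
            rw [mem_filter, hBd, mem_filter, hNu, mem_filter]
            exact ⟨⟨⟨mem_univ _, h7⟩, h8⟩, hw.2.1⟩
        omega
      have h5 := sum_le_sum h4
      rw [sum_add_distrib, sum_const, smul_eq_mul] at h5
      have h6 : (∑ z ∈ W, (Bd.filter fun w => B z w).card) ≤ Bd.card * dg B u := by
        have h7 : (∑ z ∈ W, (Bd.filter fun w => B z w).card) =
            ∑ w ∈ Bd, (W.filter fun z => B z w).card := by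
          simp only [card_filter]
          exact sum_comm
        rw [h7, ← smul_eq_mul]
        apply sum_le_card_nsmul
        intro w _
        have h8 : (W.filter fun z => B z w).card ≤ dg B w := by
          unfold dg
          apply card_le_card
          intro z hz
          rw [mem_filter] at hz ⊢
          exact ⟨mem_univ _, (hB.comm hS _ _).1 hz.2⟩
        rw [dg_eq hS hB u w]
        exact h8
      omega
    omega
  have hWc : W.card ≤ dg X u := by
    rw [← hNc, hW]
    exact card_filter_le _ _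
  have h1 : ((∑ z ∈ Nu, ct B X z u : ℕ) : ℝ) ≤ W.card * t + 2 * (Bd.card * dg B u) := by
    exact_mod_cast hsplit
  have h2 : (W.card : ℝ) ≤ dg X u := by exact_mod_cast hWc
  have h3 : 2 * (t : ℝ) < dg B u := by exact_mod_cast ht
  have h4 : (0 : ℝ) ≤ t := Nat.cast_nonneg _
  have hBpos : (0 : ℝ) < dg B u := by linarith
  have h5 : (W.card : ℝ) * t ≤ dg X u * t := mul_le_mul_of_nonneg_right h2 h4
  have h6 : (Bd.card : ℝ) * dg B u ≤ Q.card * R * dg X u * dg B u :=
    mul_le_mul_of_nonneg_right hbad hBpos.le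
  have h7 : (1 - ρ) * dg X u * dg B u ≤ dg X u * t + 2 * (Q.card * R * dg X u * dg B u) := by
    linarith
  have h8 : (0 : ℝ) < dg X u * dg B u := mul_pos hd hBpos
  have h9 : (1 - ρ - 2 * Q.card * R) * (dg X u * dg B u) ≤ dg X u * t := by nlinarith
  have h10 : (1 / 2 : ℝ) * (dg X u * dg B u) ≤ dg X u * t := by
    refine le_trans ?_ h9
    apply mul_le_mul_of_nonneg_right _ h8.le
    linarith
  nlinarith

end

end Pool.Agent.H57.BF
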